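import Mathlib

/-!
# MP_cd2ba9_co: complements of multicone graphs need not be determined by their spectrum

The complement of `K_w ∨ m C_n` is `w K_1 ∪ complement (m C_n)`.

For `(m, n) = (1, 6)` the complement of `C_6` is the triangular prism, with eigenvalues
`3, 1, 0, 0, -2, -2`.  Together with two isolated vertices it is cospectral with the graph on
eight vertices formed by two triangles sharing an edge `01` with two pendant vertices attached to
each of `0` and `1`.
-/

set_option autoImplicit false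

namespace Pool.Agent.Results.MP_cd2ba9_co.ComplementMulticone

open SimpleGraph Matrix Polynomial

/-- The join of two vertex-disjoint graphs: the disjoint union together with all edges between the
two parts. -/
def join {V W : Type} (G : SimpleGraph V) (H : SimpleGraph W) : SimpleGraph (V ⊕ W) where
  Adj
    | .inl a, .inl b => G.Adj a b
    | .inr a, .inr b => H.Adj a b
    | .inl _, .inr _ => True
    | .inr _, .inl _ => True
  symm := ⟨by
    rintro (a | a) (b | b) h
    · exact G.adj_symm h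
    · trivial
    · trivial
    · exact H.adj_symm h⟩
  loopless := ⟨by
    rintro (a | a) h
    · exact G.irrefl h
    · exact H.irrefl h⟩

/-- `m C_n`: the disjoint union of `m` copies of the cycle `C_n`. -/
def copies (m n : ℕ) : SimpleGraph (Fin m × Fin n) where
  Adj p q := p.1 = q.1 ∧ (cycleGraph n).Adj p.2 q.2
  symm := ⟨fun _ _ h => ⟨h.1.symm, h.2.symm⟩⟩
  loopless := ⟨fun _ h => (cycleGraph n).irrefl h.2⟩

/-- The multicone graph `K_w ∨ m C_n`. -/
def multicone (w m n : ℕ) : SimpleGraph (Fin w ⊕ (Fin m × Fin n)) :=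
  join ⊤ (copies m n)

open Classical in
/-- Cospectral graphs: the real adjacency matrices have the same characteristic polynomial, that
is, the same eigenvalues with the same multiplicities. -/
def Cospectral {V W : Type} [Fintype V] [Fintype W] (G : SimpleGraph V) (H : SimpleGraph W) :
    Prop :=
  (G.adjMatrix ℝ).charpoly = (H.adjMatrix ℝ).charpoly

/-- `G` is determined by its adjacency spectrum. -/
def DS {V : Type} [Fintype V] (G : SimpleGraph V) : Prop :=
  ∀ (W : Type) [Fintype W] (H : SimpleGraph W), Cospectral H G → Nonempty (H ≃g G)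

/-! ### General lemmas -/

/-- adding isolated vertices in front of a graph -/
def addIso (k : ℕ) {V : Type} (G : SimpleGraph V) : SimpleGraph (Fin k ⊕ V) where
  Adj
    | .inr a, .inr b => G.Adj a b
    | _, _ => False
  symm := ⟨by
    rintro (a | a) (b | b) h
    · exact h
    · exact h
    · exact h
    · exact G.adj_symm h⟩
  loopless := ⟨by
    rintro (a | a) h
    · exact h
    · exact G.irrefl h⟩

instance (k : ℕ) {V : Type} (G : SimpleGraph V) [DecidableRel G.Adj] :
    DecidableRel (addIso k G).Adj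
  | .inr a, .inr b => inferInstanceAs (Decidable (G.Adj a b))
  | .inl _, .inl _ => inferInstanceAs (Decidable False)
  | .inl _, .inr _ => inferInstanceAs (Decidable False)
  | .inr _, .inl _ => inferInstanceAs (Decidable False)

lemma charpoly_addIso (k : ℕ) {V : Type} [Fintype V] [DecidableEq V] (G : SimpleGraph V)
    [DecidableRel G.Adj] [DecidableRel (addIso k G).Adj] :
    ((addIso k G).adjMatrix ℝ).charpoly = X ^ k * (G.adjMatrix ℝ).charpoly := by
  have h : (addIso k G).adjMatrix ℝ = fromBlocks 0 0 0 (G.adjMatrix ℝ) := by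
    ext i j
    rcases i with i | i <;> rcases j with j | j
    · have hn : ¬ (addIso k G).Adj (Sum.inl i) (Sum.inl j) := fun h => h
      rw [adjMatrix_apply, if_neg hn, fromBlocks_apply₁₁, Matrix.zero_apply]
    · have hn : ¬ (addIso k G).Adj (Sum.inl i) (Sum.inr j) := fun h => h
      rw [adjMatrix_apply, if_neg hn, fromBlocks_apply₁₂, Matrix.zero_apply]
    · have hn : ¬ (addIso k G).Adj (Sum.inr i) (Sum.inl j) := fun h => h
      rw [adjMatrix_apply, if_neg hn, fromBlocks_apply₂₁, Matrix.zero_apply]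
    · rw [adjMatrix_apply, fromBlocks_apply₂₂, adjMatrix_apply]
      have : (addIso k G).Adj (Sum.inr i) (Sum.inr j) ↔ G.Adj i j := Iff.rfl
      simp only [this]
  rw [h, charpoly_fromBlocks_zero₁₂]
  simp

lemma compl_multicone (w m n : ℕ) : (multicone w m n)ᶜ = addIso w (copies m n)ᶜ := by
  ext i j
  rcases i with i | i <;> rcases j with j | j
  · have h1 : (multicone w m n).Adj (Sum.inl i) (Sum.inl j) ↔ i ≠ j := by
      change (⊤ : SimpleGraph (Fin w)).Adj i j ↔ _
      simp
    have h2 : ¬ (addIso w (copies m n)ᶜ).Adj (Sum.inl i) (Sum.inl j) := fun h => h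
    simp [compl_adj, h1, h2]
  · have h1 : (multicone w m n).Adj (Sum.inl i) (Sum.inr j) := trivial
    have h2 : ¬ (addIso w (copies m n)ᶜ).Adj (Sum.inl i) (Sum.inr j) := fun h => h
    simp [compl_adj, h1, h2]
  · have h1 : (multicone w m n).Adj (Sum.inr i) (Sum.inl j) := trivial
    have h2 : ¬ (addIso w (copies m n)ᶜ).Adj (Sum.inr i) (Sum.inl j) := fun h => h
    simp [compl_adj, h1, h2]
  · have h1 : (multicone w m n).Adj (Sum.inr i) (Sum.inr j) ↔ (copies m n).Adj i j := Iff.rfl
    have h2 : (addIso w (copies m n)ᶜ).Adj (Sum.inr i) (Sum.inr j) ↔ (copies m n)ᶜ.Adj i j :=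
      Iff.rfl
    rw [h2, compl_adj, compl_adj, h1]
    simp

lemma not_iso {V W : Type} (H : SimpleGraph V) (G : SimpleGraph W) (p q : V)
    (h1 : H.Adj p q) (h2 : ∀ r, H.Adj p r → r = q)
    (h3 : ∀ x y, G.Adj x y → ∃ z, z ≠ y ∧ G.Adj x z) : ¬ Nonempty (H ≃g G) := by
  rintro ⟨f⟩
  obtain ⟨z, hz, hadj⟩ := h3 (f p) (f q) (f.map_adj_iff.mpr h1)
  apply hz
  have : H.Adj p (f.symm z) := by
    rw [← f.map_adj_iff]
    simpa using hadj
  have := h2 _ this
  rw [← this]
  simp

lemma charpoly_eq_of_int {n : Type} [Fintype n] [DecidableEq n] (A B P Q : Matrix n n ℤ) (c : ℤ)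
    (hc : c ≠ 0) (h1 : A * P = P * B) (h2 : P * Q = c • 1) :
    (A.map (Int.castRingHom ℝ)).charpoly = (B.map (Int.castRingHom ℝ)).charpoly := by
  have hdet : P.det ≠ 0 := by
    intro h0
    have := congrArg Matrix.det h2
    rw [det_mul, h0, zero_mul, det_smul, det_one, mul_one] at this
    exact pow_ne_zero _ hc this.symm
  rw [charpoly_map, charpoly_map]
  congr 1
  have key : (A.charpoly) * C P.det = C P.det * B.charpoly := by
    have e : charmatrix A * P.map C = P.map C * charmatrix B := by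
      have h1' : A.map C * P.map C = P.map C * B.map (C : ℤ → ℤ[X]) := by
        have := congrArg (fun M => M.map (C : ℤ → ℤ[X])) h1
        simpa [Matrix.map_mul] using this
      simp only [charmatrix, RingHom.mapMatrix_apply]
      rw [sub_mul, mul_sub, h1']
      congr 1
      exact (scalar_commute X (fun r => Commute.all _ _) _).eq
    have := congrArg Matrix.det e
    rw [det_mul, det_mul] at this
    have hd : (P.map (C : ℤ → ℤ[X])).det = C P.det := by
      have := (RingHom.map_det (C : ℤ →+* ℤ[X]) P)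
      simpa using this.symm
    rwa [hd] at this
  rw [mul_comm] at key
  exact mul_left_cancel₀ (by simpa using hdet) key


/-! ### The prism and its mate -/

/-- two triangles `0 1 2`, `0 1 3` sharing the edge `0 1`, with pendant vertices `4, 5` at `0` and
`6, 7` at `1` -/
def mate : SimpleGraph (Fin 8) where
  Adj a b := (a, b) ∈ ([(0,1),(0,2),(1,2),(0,3),(1,3),(0,4),(0,5),(1,6),(1,7),
    (1,0),(2,0),(2,1),(3,0),(3,1),(4,0),(5,0),(6,1),(7,1)] : List (Fin 8 × Fin 8))
  symm := ⟨by decide⟩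
  loopless := ⟨by decide⟩

instance : DecidableRel mate.Adj := fun a b => by unfold mate; infer_instance

instance (m n : ℕ) : DecidableRel (copies m n).Adj := fun a b => by
  unfold copies; infer_instance

/-- the relabelling of `Fin 2 ⊕ (Fin 1 × Fin 6)` by `Fin 8` -/
def e8 : Fin 2 ⊕ (Fin 1 × Fin 6) ≃ Fin 8 :=
  (Equiv.sumCongr (Equiv.refl _) (Equiv.uniqueProd (Fin 6) (Fin 1))).trans finSumFinEquiv

def A8 : Matrix (Fin 8) (Fin 8) ℤ :=
  !![0,1,1,1,1,1,0,0; 1,0,1,1,0,0,1,1; 1,1,0,0,0,0,0,0; 1,1,0,0,0,0,0,0;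
     1,0,0,0,0,0,0,0; 1,0,0,0,0,0,0,0; 0,1,0,0,0,0,0,0; 0,1,0,0,0,0,0,0]

def B8 : Matrix (Fin 8) (Fin 8) ℤ :=
  !![0,0,0,0,0,0,0,0; 0,0,0,0,0,0,0,0; 0,0,0,0,1,1,1,0; 0,0,0,0,0,1,1,1;
     0,0,1,0,0,0,1,1; 0,0,1,1,0,0,0,1; 0,0,1,1,1,0,0,0; 0,0,0,1,1,1,0,0]

def P8 : Matrix (Fin 8) (Fin 8) ℤ :=
  !![0, 0, 0, 0, -1, -1, -1, 0; 0, 0, 0, -1, -1, -1, 0, 0; 0, 0, 0, -1, 0, 1, -1, -1;
     0, 1, -1, 0, 0, 0, 0, -1; 0, -1, -1, 0, 0, 0, 0, 0; 0, 0, -1, 0, 0, 0, 0, 0;
     1, -1, -1, 0, 1, -1, 0, 0; -1, 0, 0, 0, 0, 0, 0, -1]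

def Q8 : Matrix (Fin 8) (Fin 8) ℤ :=
  !![0, 0, 0, 5, 5, -10, 0, -5; 0, 0, 0, 0, -5, 5, 0, 0; 0, 0, 0, 0, 0, -5, 0, 0;
     2, -3, -2, 3, 4, -6, -1, -1; -1, -1, 1, -4, -7, 8, 3, 3; -1, -1, 1, 1, 3, -2, -2, -2;
     -3, 2, -2, 3, 4, -6, -1, -1; 0, 0, 0, -5, -5, 10, 0, 0]

lemma charpoly_A8_B8 :
    (A8.map (Int.castRingHom ℝ)).charpoly = (B8.map (Int.castRingHom ℝ)).charpoly :=
  charpoly_eq_of_int A8 B8 P8 Q8 5 (by norm_num) (by decide +kernel) (by decide +kernel)

lemma adj_of_int {V : Type} [DecidableEq V] (G : SimpleGraph V) [DecidableRel G.Adj]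
    (A : Matrix V V ℤ) (h : G.adjMatrix ℤ = A) :
    G.adjMatrix ℝ = A.map (Int.castRingHom ℝ) := by
  rw [← h]
  ext i j
  rw [map_apply, adjMatrix_apply, adjMatrix_apply]
  split_ifs <;> simp

lemma mate_eq : mate.adjMatrix ℝ = A8.map (Int.castRingHom ℝ) :=
  adj_of_int _ _ (by decide +kernel)

lemma prism_eq : (addIso 2 (copies 1 6)ᶜ).adjMatrix ℝ =
    (B8.submatrix e8 e8).map (Int.castRingHom ℝ) :=
  adj_of_int _ _ (by decide +kernel)

lemma charpoly_mate :
    (mate.adjMatrix ℝ).charpoly = X ^ 2 * ((copies 1 6)ᶜ.adjMatrix ℝ).charpoly := by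
  rw [mate_eq, charpoly_A8_B8, ← charpoly_addIso, prism_eq]
  rw [← submatrix_map, show (B8.map (Int.castRingHom ℝ)).submatrix e8 e8 =
    reindex e8.symm e8.symm (B8.map (Int.castRingHom ℝ)) from rfl, charpoly_reindex]


/-! ### The result -/

lemma cospectral_of_eq {V W : Type} [Fintype V] [Fintype W] [dV : DecidableEq V]
    [dW : DecidableEq W] (G : SimpleGraph V) (H : SimpleGraph W) [dG : DecidableRel G.Adj]
    [dH : DecidableRel H.Adj]
    (h : (G.adjMatrix ℝ).charpoly = (H.adjMatrix ℝ).charpoly) : Cospectral G H := by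
  obtain rfl : dV = fun a b => Classical.propDecidable (a = b) := Subsingleton.elim _ _
  obtain rfl : dW = fun a b => Classical.propDecidable (a = b) := Subsingleton.elim _ _
  obtain rfl : dG = fun a b => Classical.propDecidable (G.Adj a b) := Subsingleton.elim _ _
  obtain rfl : dH = fun a b => Classical.propDecidable (H.Adj a b) := Subsingleton.elim _ _
  exact h

lemma key {V W : Type} [Fintype V] [Fintype W] [DecidableEq V] [DecidableEq W]
    (G : SimpleGraph V) (H : SimpleGraph W) [DecidableRel G.Adj] [DecidableRel H.Adj] (k w : ℕ)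
    (hkw : k ≤ w) (h : (H.adjMatrix ℝ).charpoly = X ^ k * (G.adjMatrix ℝ).charpoly)
    (p q : W) (h1 : H.Adj p q) (h2 : ∀ r, H.Adj p r → r = q)
    (h3 : ∀ x y, G.Adj x y → ∃ z, z ≠ y ∧ G.Adj x z) : ¬ DS (addIso w G) := by
  intro hds
  refine not_iso (addIso (w - k) H) (addIso w G) (Sum.inr p) (Sum.inr q) h1 ?_ ?_
    (hds _ (addIso (w - k) H) ?_)
  · rintro (r | r) hr
    · exact hr.elim
    · exact congrArg Sum.inr (h2 r hr)
  · rintro (x | x) (y | y) hxy
    · exact hxy.elim
    · exact hxy.elim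
    · exact hxy.elim
    · obtain ⟨z, hz, hz'⟩ := h3 x y hxy
      exact ⟨Sum.inr z, fun h => hz (Sum.inr_injective h), hz'⟩
  · apply cospectral_of_eq
    rw [charpoly_addIso, charpoly_addIso, h, ← mul_assoc, ← pow_add,
      Nat.sub_add_cancel hkw]

/-- **Complements of multicone graphs are not always determined by their adjacency spectrum.**
For every `w ≥ 2` the complement of `K_w ∨ C_6` is not determined by its adjacency spectrum. -/
theorem result (w : ℕ) (hw : 2 ≤ w) : ¬ DS (multicone w 1 6)ᶜ := by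
  rw [compl_multicone]
  exact key (copies 1 6)ᶜ mate 2 w hw charpoly_mate 4 0 (by decide) (by decide) (by decide +kernel)

end Pool.Agent.Results.MP_cd2ba9_co.ComplementMulticone
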